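import Pool.Agent.Mg.F93a3f8p.G988686

open Finset Pointwise

namespace Pool.Agent.Results.MP_93a3f8_co.SqrtSubsets

/-- Subsets of size `c √n` already reach the Cauchy-Davenport bound, for all `n ≤ (p+1)/2`. -/
theorem result : ∃ c : ℝ, 0 < c ∧ ∀ p : ℕ, p.Prime → ∀ n : ℕ, 1 ≤ n → 2 * n ≤ p + 1 →
    ∀ A B : Finset (ZMod p), A.card = n → B.card = n →
      ∃ A' B' : Finset (ZMod p), A' ⊆ A ∧ B' ⊆ B ∧ A'.card = B'.card ∧
        (A'.card : ℝ) ≤ c * Real.sqrt n ∧ 2 * n - 1 ≤ (A' + B').card := by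
  obtain ⟨c, hc, h⟩ := Pool.Agent.MP_93a3f8_co.all_main
  refine ⟨c, hc, fun p hp n _ hn A B hA hB => ?_⟩
  have : Fact p.Prime := ⟨hp⟩
  obtain ⟨A1, hA1, B1, hB1, h1, h2, h3⟩ := h p n A B hn hA hB
  have h4 := card_le_card hA1
  have h5 := card_le_card hB1
  obtain ⟨A', h6, h7, h8⟩ := exists_subsuperset_card_eq (n := max A1.card B1.card) hA1
    (le_max_left _ _) (max_le h4 (by omega))
  obtain ⟨B', h9, h10, h11⟩ := exists_subsuperset_card_eq (n := max A1.card B1.card) hB1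
    (le_max_right _ _) (max_le (by omega) h5)
  refine ⟨A', B', h7, h10, by rw [h8, h11], ?_, ?_⟩
  · rw [h8]; push_cast; exact max_le h1 h2
  · have := card_le_card (add_subset_add h6 h9)
    omega

end Pool.Agent.Results.MP_93a3f8_co.SqrtSubsets
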